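import Mathlib

/-! Growth of naive heights along the orbits of a commutative group which acts unipotently. -/

namespace Pool.Agent.H73.HK

open scoped BigOperators

/-- the length of `n` -/
def len {r : ℕ} (n : Fin r → ℤ) : ℕ := ∑ i, (n i).natAbs

theorem len_zero {r : ℕ} : len (0 : Fin r → ℤ) = 0 := by simp [len]

theorem eq_zero_of_len {r : ℕ} {n : Fin r → ℤ} (h : len n = 0) : n = 0 := by
  funext i
  have h1 : (n i).natAbs ≤ len n :=
    Finset.single_le_sum (f := fun i => (n i).natAbs) (fun _ _ => Nat.zero_le _)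
      (Finset.mem_univ i)
  have : (n i).natAbs = 0 := by omega
  simpa using this

/-- a vector of positive length is a unit step away from a shorter one -/
theorem exists_step {r : ℕ} (n : Fin r → ℤ) (k : ℕ) (h : len n = k + 1) :
    ∃ (i : Fin r) (e : ℤ), (e = 1 ∨ e = -1) ∧ len (n - Pi.single i e) = k := by
  classical
  have h1 : ∃ i, n i ≠ 0 := by
    by_contra hcon
    push Not at hcon
    have : len n = 0 := by simp [len, hcon]
    omega
  obtain ⟨i, hi⟩ := h1
  have key : ∀ e : ℤ, (n i - e).natAbs + 1 = (n i).natAbs → len (n - Pi.single i e) = k := by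
    intro e he
    have h2 : len (n - Pi.single i e) + 1 = len n := by
      unfold len
      rw [← Finset.add_sum_erase _ _ (Finset.mem_univ i),
        ← Finset.add_sum_erase (Finset.univ) (fun j => (n j).natAbs) (Finset.mem_univ i)]
      have h3 : ∑ x ∈ Finset.univ.erase i, ((n - Pi.single i e : Fin r → ℤ) x).natAbs =
          ∑ x ∈ Finset.univ.erase i, (n x).natAbs := by
        refine Finset.sum_congr rfl fun j hj => ?_
        rw [Pi.sub_apply, Pi.single_eq_of_ne (Finset.ne_of_mem_erase hj), sub_zero]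
      rw [h3, Pi.sub_apply, Pi.single_eq_same]
      omega
    omega
  rcases lt_or_gt_of_ne hi with h2 | h2
  · exact ⟨i, -1, Or.inr rfl, key (-1) (by omega)⟩
  · exact ⟨i, 1, Or.inl rfl, key 1 (by omega)⟩

theorem len_single {r : ℕ} (i : Fin r) (e : ℤ) (he : e = 1 ∨ e = -1) :
    len (Pi.single i e : Fin r → ℤ) = 1 := by
  classical
  unfold len
  rw [Finset.sum_eq_single i]
  · rw [Pi.single_eq_same]
    rcases he with rfl | rfl <;> rfl
  · intro j _ hj
    rw [Pi.single_eq_of_ne hj]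
    rfl
  · intro h
    exact absurd (Finset.mem_univ i) h

theorem len_add_le {r : ℕ} (m n : Fin r → ℤ) : len (m + n) ≤ len m + len n := by
  unfold len
  rw [← Finset.sum_add_distrib]
  exact Finset.sum_le_sum fun i _ => Int.natAbs_add_le _ _

/-- **Height growth.** `h x` is the vector of the heights of the point `x` for a basis of the
Néron-Severi group, `M n` describes the action of `n` on this group, of norm at most
`C₁ (1 + |n|²)`, and the heights are compatible with the generators up to `C₀`. -/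
theorem height_growth {P E : Type} [SeminormedAddCommGroup E] [NormedSpace ℝ E] {r : ℕ}
    (act : (Fin r → ℤ) → P → P) (act_zero : ∀ x, act 0 x = x)
    (act_add : ∀ m n x, act (m + n) x = act m (act n x)) (h : P → E)
    (M : (Fin r → ℤ) → E →ₗ[ℝ] E) (M_zero : ∀ v, M 0 v = v)
    (M_add : ∀ m n v, M (m + n) v = M m (M n v)) (C₁ : ℝ) (hC₁ : 0 ≤ C₁)
    (hM : ∀ n v, ‖M n v‖ ≤ C₁ * (1 + (len n : ℝ) ^ 2) * ‖v‖) (C₀ : ℝ) (hC₀ : 0 ≤ C₀)
    (step : ∀ i (e : ℤ) x, e = 1 ∨ e = -1 →
      ‖h (act (Pi.single i e) x) - M (Pi.single i e) (h x)‖ ≤ C₀) (n : Fin r → ℤ) (x : P) :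
    ‖h (act n x) - M n (h x)‖ ≤ len n * (C₁ * (1 + (len n : ℝ) ^ 2) * C₀) := by
  have key : ∀ (k : ℕ) (m p : Fin r → ℤ) (y : P), len p = k →
      ‖M m (h (act p y)) - M (m + p) (h y)‖ ≤
        k * (C₁ * (1 + ((len m + k : ℕ) : ℝ) ^ 2) * C₀) := by
    intro k
    induction k with
    | zero =>
      intro m p y hp
      rw [eq_zero_of_len hp, act_zero, add_zero, sub_self, norm_zero]
      simp
    | succ k ih =>
      intro m p y hp
      obtain ⟨i, e, he, hq⟩ := exists_step p k hp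
      obtain ⟨q, hqd⟩ : ∃ q, q = p - Pi.single i e := ⟨_, rfl⟩
      rw [← hqd] at hq
      have hpq : p = Pi.single i e + q := by rw [hqd]; abel
      have h1 : M m (h (act p y)) - M (m + p) (h y) =
          M m (h (act (Pi.single i e) (act q y)) - M (Pi.single i e) (h (act q y))) +
            (M (m + Pi.single i e) (h (act q y)) - M (m + Pi.single i e + q) (h y)) := by
        rw [hpq, act_add, map_sub, M_add m (Pi.single i e), add_assoc]
        abel
      have h2 := hM m (h (act (Pi.single i e) (act q y)) - M (Pi.single i e) (h (act q y)))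
      have h3 := step i e (act q y) he
      have h4 := ih (m + Pi.single i e) q y hq
      have h5 : len (m + Pi.single i e) + k ≤ len m + (k + 1) := by
        have := len_add_le m (Pi.single i e)
        have := len_single i e he
        omega
      have h6 : ((len (m + Pi.single i e) + k : ℕ) : ℝ) ^ 2 ≤ ((len m + (k + 1) : ℕ) : ℝ) ^ 2 := by
        have : ((len (m + Pi.single i e) + k : ℕ) : ℝ) ≤ ((len m + (k + 1) : ℕ) : ℝ) := by
          exact_mod_cast h5
        exact pow_le_pow_left₀ (Nat.cast_nonneg _) this 2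
      have h7 : (len m : ℝ) ^ 2 ≤ ((len m + (k + 1) : ℕ) : ℝ) ^ 2 := by
        have : (len m : ℝ) ≤ ((len m + (k + 1) : ℕ) : ℝ) := by
          exact_mod_cast (by omega : len m ≤ len m + (k + 1))
        exact pow_le_pow_left₀ (Nat.cast_nonneg _) this 2
      rw [h1]
      refine (norm_add_le _ _).trans ?_
      have h8 : C₁ * (1 + (len m : ℝ) ^ 2) * ‖h (act (Pi.single i e) (act q y)) -
          M (Pi.single i e) (h (act q y))‖ ≤
          C₁ * (1 + ((len m + (k + 1) : ℕ) : ℝ) ^ 2) * C₀ := by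
        refine mul_le_mul ?_ h3 (norm_nonneg _) ?_
        · exact mul_le_mul_of_nonneg_left (by linarith) hC₁
        · exact mul_nonneg hC₁ (by positivity)
      have h9 : (k : ℝ) * (C₁ * (1 + ((len (m + Pi.single i e) + k : ℕ) : ℝ) ^ 2) * C₀) ≤
          k * (C₁ * (1 + ((len m + (k + 1) : ℕ) : ℝ) ^ 2) * C₀) := by
        refine mul_le_mul_of_nonneg_left ?_ (Nat.cast_nonneg k)
        refine mul_le_mul_of_nonneg_right ?_ hC₀
        exact mul_le_mul_of_nonneg_left (by linarith) hC₁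
      have h10 : ((k + 1 : ℕ) : ℝ) * (C₁ * (1 + ((len m + (k + 1) : ℕ) : ℝ) ^ 2) * C₀) =
          k * (C₁ * (1 + ((len m + (k + 1) : ℕ) : ℝ) ^ 2) * C₀) +
            C₁ * (1 + ((len m + (k + 1) : ℕ) : ℝ) ^ 2) * C₀ := by
        push_cast
        ring
      rw [h10]
      linarith
  have h1 := key (len n) 0 n x rfl
  rw [M_zero, zero_add, len_zero, zero_add] at h1
  exact h1

/-- the bound for the heights on an orbit -/
theorem height_bound {P E : Type} [SeminormedAddCommGroup E] [NormedSpace ℝ E] {r : ℕ}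
    (act : (Fin r → ℤ) → P → P) (act_zero : ∀ x, act 0 x = x)
    (act_add : ∀ m n x, act (m + n) x = act m (act n x)) (h : P → E)
    (M : (Fin r → ℤ) → E →ₗ[ℝ] E) (M_zero : ∀ v, M 0 v = v)
    (M_add : ∀ m n v, M (m + n) v = M m (M n v)) (C₁ : ℝ) (hC₁ : 0 ≤ C₁)
    (hM : ∀ n v, ‖M n v‖ ≤ C₁ * (1 + (len n : ℝ) ^ 2) * ‖v‖) (C₀ : ℝ) (hC₀ : 0 ≤ C₀)
    (step : ∀ i (e : ℤ) x, e = 1 ∨ e = -1 →
      ‖h (act (Pi.single i e) x) - M (Pi.single i e) (h x)‖ ≤ C₀) (n : Fin r → ℤ) (x : P)
    (R : ℝ) (hR : (len n : ℝ) ≤ R) :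
    ‖h (act n x)‖ ≤ C₁ * (1 + R ^ 2) * ‖h x‖ + C₀ * C₁ * (R + R ^ 3) := by
  have h1 := height_growth act act_zero act_add h M M_zero M_add C₁ hC₁ hM C₀ hC₀ step n x
  have h2 := hM n (h x)
  have h3 : ‖h (act n x)‖ ≤ ‖h (act n x) - M n (h x)‖ + ‖M n (h x)‖ := by
    have := norm_add_le (h (act n x) - M n (h x)) (M n (h x))
    rwa [sub_add_cancel] at this
  have h0 : (0 : ℝ) ≤ len n := Nat.cast_nonneg _
  have h4 : (len n : ℝ) ^ 2 ≤ R ^ 2 := pow_le_pow_left₀ h0 hR 2
  have h5 : C₁ * (1 + (len n : ℝ) ^ 2) * ‖h x‖ ≤ C₁ * (1 + R ^ 2) * ‖h x‖ := by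
    refine mul_le_mul_of_nonneg_right ?_ (norm_nonneg _)
    exact mul_le_mul_of_nonneg_left (by linarith) hC₁
  have h6 : (len n : ℝ) * (C₁ * (1 + (len n : ℝ) ^ 2) * C₀) ≤ C₀ * C₁ * (R + R ^ 3) := by
    have h7 : (len n : ℝ) * (1 + (len n : ℝ) ^ 2) ≤ R * (1 + R ^ 2) :=
      mul_le_mul hR (by linarith) (by positivity) (h0.trans hR)
    have h8 := mul_le_mul_of_nonneg_left h7 (mul_nonneg hC₀ hC₁)
    calc (len n : ℝ) * (C₁ * (1 + (len n : ℝ) ^ 2) * C₀) =
        C₀ * C₁ * ((len n : ℝ) * (1 + (len n : ℝ) ^ 2)) := by ring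
      _ ≤ C₀ * C₁ * (R * (1 + R ^ 2)) := h8
      _ = C₀ * C₁ * (R + R ^ 3) := by ring
  linarith

end Pool.Agent.H73.HK
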