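import Mathlib

/-! The final numerical contradiction. -/

namespace Pool.Agent.H73.HK

open Filter Topology

/-- the choice of `K` -/
theorem exists_K (C₅ : ℝ) (hC₅ : 0 < C₅) (m : ℕ) (hm : 1 ≤ m) :
    ∃ K : ℕ, C₅ * (m : ℝ) ^ 4 ≤ (32 : ℝ) ^ K ∧
      ((2 : ℝ) ^ K) ^ 5 ≤ (32 * C₅ + 1) * (m : ℝ) ^ 4 := by
  classical
  have hex : ∃ K : ℕ, C₅ * (m : ℝ) ^ 4 ≤ (32 : ℝ) ^ K := by
    obtain ⟨K, hK⟩ := pow_unbounded_of_one_lt (C₅ * (m : ℝ) ^ 4) (by norm_num : (1 : ℝ) < 32)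
    exact ⟨K, hK.le⟩
  have hm' : (1 : ℝ) ≤ (m : ℝ) ^ 4 := by
    have : (1 : ℝ) ≤ m := by exact_mod_cast hm
    exact one_le_pow₀ this
  have h2 : ∀ K : ℕ, ((2 : ℝ) ^ K) ^ 5 = 32 ^ K := by
    intro K
    rw [← pow_mul, mul_comm, pow_mul]
    norm_num
  refine ⟨Nat.find hex, Nat.find_spec hex, ?_⟩
  rw [h2]
  rcases Nat.eq_zero_or_pos (Nat.find hex) with h0 | h0
  · rw [h0, pow_zero]
    nlinarith
  · have h3 := Nat.find_min hex (m := Nat.find hex - 1) (by omega)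
    push Not at h3
    have h4 : (32 : ℝ) ^ (Nat.find hex) = 32 * 32 ^ (Nat.find hex - 1) := by
      rw [← pow_succ']
      congr 1
      omega
    rw [h4]
    nlinarith

/-- the choice of `D` -/
theorem exists_D (N : ℕ) : ∃ D : ℕ, D * (D + 1) ≤ N ∧ N < (D + 1) * (D + 2) := by
  classical
  have hex : ∃ D : ℕ, N < (D + 1) * (D + 2) := ⟨N, by nlinarith⟩
  refine ⟨Nat.find hex, ?_, Nat.find_spec hex⟩
  rcases Nat.eq_zero_or_pos (Nat.find hex) with h0 | h0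
  · rw [h0]
    simp
  · have h3 := Nat.find_min hex (m := Nat.find hex - 1) (by omega)
    push Not at h3
    obtain ⟨k, hk⟩ : ∃ k, Nat.find hex = k + 1 := ⟨Nat.find hex - 1, by omega⟩
    rw [hk] at h3 ⊢
    simpa using h3

/-- for large `m` all the lower order terms are small -/
theorem eventually_small (C : ℝ) (hC : 0 ≤ C) (ε : ℝ) (hε : 0 < ε) :
    ∀ᶠ m : ℕ in atTop, (∀ R : ℝ, 0 ≤ R → R ^ 5 ≤ C * (m : ℝ) ^ 4 → R ≤ ε * m) ∧
      Real.log m ≤ ε * m ∧ 1 ≤ ε * m := by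
  have h1 : ∀ᶠ m : ℕ in atTop, C / ε ^ 5 ≤ m := by
    obtain ⟨k, hk⟩ := exists_nat_ge (C / ε ^ 5)
    filter_upwards [eventually_ge_atTop k] with m hm
    exact hk.trans (by exact_mod_cast hm)
  have h2 : ∀ᶠ m : ℕ in atTop, Real.log m ≤ ε * m := by
    have h3 := (Real.isLittleO_log_id_atTop.def hε)
    have h4 := tendsto_natCast_atTop_atTop (R := ℝ)
    have h5 := h4.eventually h3
    filter_upwards [h5, eventually_ge_atTop 1] with m hm hm1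
    have h6 : (0 : ℝ) ≤ m := Nat.cast_nonneg m
    simp only [id, Real.norm_eq_abs, abs_of_nonneg h6] at hm
    exact (le_abs_self _).trans hm
  have h3 : ∀ᶠ m : ℕ in atTop, 1 / ε ≤ m := by
    obtain ⟨k, hk⟩ := exists_nat_ge (1 / ε)
    filter_upwards [eventually_ge_atTop k] with m hm
    exact hk.trans (by exact_mod_cast hm)
  filter_upwards [h1, h2, h3, eventually_ge_atTop 1] with m hm1 hm2 hm3 hm4
  have hm0 : (0 : ℝ) < m := by exact_mod_cast hm4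
  refine ⟨fun R hR hR5 => ?_, hm2, ?_⟩
  · by_contra hcon
    push Not at hcon
    have h4 : (ε * m) ^ 5 < R ^ 5 := pow_lt_pow_left₀ hcon (by positivity) (by norm_num)
    have h5 : C ≤ ε ^ 5 * m := by
      rw [div_le_iff₀ (by positivity)] at hm1
      linarith
    have h6 : C * (m : ℝ) ^ 4 ≤ (ε * m) ^ 5 := by
      calc C * (m : ℝ) ^ 4 ≤ ε ^ 5 * m * (m : ℝ) ^ 4 :=
            mul_le_mul_of_nonneg_right h5 (by positivity)
        _ = (ε * m) ^ 5 := by ring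
    linarith
  · rw [div_le_iff₀ hε] at hm3
    linarith

/-- **Numerical contradiction.** -/
theorem num (lp c₆ C₆ C₇ d C₅ : ℝ) (hlp : 0 < lp) (hc₆ : 0 < c₆) (hC₇ : 0 ≤ C₇) (hd : 0 ≤ d)
    (hC₅ : 0 ≤ C₅) : ∃ m₀ : ℕ, ∀ m : ℕ, m₀ ≤ m → ∀ R N D : ℕ, 1 ≤ R →
      (R : ℝ) ^ 5 ≤ C₅ * (m : ℝ) ^ 4 → c₆ * (m : ℝ) ^ 4 * (R : ℝ) ^ 4 ≤ N →
      (N : ℝ) ≤ C₆ * (m : ℝ) ^ 4 * (R : ℝ) ^ 4 → D * (D + 1) ≤ N → N < (D + 1) * (D + 2) →
      ¬ (lp * ((D : ℝ) * (N - D * (D + 1) / 2)) ≤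
        N * (C₇ * m * ((R : ℝ) ^ 3 + (R : ℝ) ^ 2 * (1 + Real.log m)) + d * Real.log N)) := by
  -- the constants
  obtain ⟨κ, hκ⟩ : ∃ κ, κ = lp * Real.sqrt c₆ / 8 := ⟨_, rfl⟩
  have hκ0 : 0 < κ := by
    rw [hκ]
    have := Real.sqrt_pos.2 hc₆
    positivity
  obtain ⟨ε, hε⟩ : ∃ ε, ε = κ / (4 * (3 * C₇ + 10 * d + 1)) := ⟨_, rfl⟩
  have hε0 : 0 < ε := by
    rw [hε]
    positivity
  have hε1 : (3 * C₇ + 10 * d) * ε < κ := by
    rw [hε]
    have h1 : (3 * C₇ + 10 * d) * (κ / (4 * (3 * C₇ + 10 * d + 1))) =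
        κ * ((3 * C₇ + 10 * d) / (4 * (3 * C₇ + 10 * d + 1))) := by ring
    rw [h1]
    have h2 : (3 * C₇ + 10 * d) / (4 * (3 * C₇ + 10 * d + 1)) < 1 := by
      rw [div_lt_one (by positivity)]
      nlinarith
    calc κ * ((3 * C₇ + 10 * d) / (4 * (3 * C₇ + 10 * d + 1))) < κ * 1 :=
          mul_lt_mul_of_pos_left h2 hκ0
      _ = κ := mul_one κ
  have hev := (eventually_small C₅ hC₅ ε hε0).and (eventually_ge_atTop (max 1 (max ⌈1 / c₆⌉₊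
    (max ⌈256 / c₆⌉₊ ⌈|C₆|⌉₊))))
  obtain ⟨m₀, hm₀⟩ := eventually_atTop.1 hev
  refine ⟨m₀, fun m hm R N D hR hR5 hN1 hN2 hD1 hD2 hcon => ?_⟩
  obtain ⟨⟨hsm, hlog, hone⟩, hbig⟩ := hm₀ m hm
  have hm1 : 1 ≤ m := (le_max_left _ _).trans hbig
  have hmr : (1 : ℝ) ≤ m := by exact_mod_cast hm1
  have hm256 : 256 / c₆ ≤ m := by
    have h1 : ⌈256 / c₆⌉₊ ≤ m := ((le_max_left _ _).trans
      ((le_max_right _ _).trans (le_max_right _ _))).trans hbig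
    exact (Nat.le_ceil _).trans (by exact_mod_cast h1)
  have hmC : |C₆| ≤ m := by
    have h1 : ⌈|C₆|⌉₊ ≤ m := ((le_max_right _ _).trans
      ((le_max_right _ _).trans (le_max_right _ _))).trans hbig
    exact (Nat.le_ceil _).trans (by exact_mod_cast h1)
  have hRr : (1 : ℝ) ≤ R := by exact_mod_cast hR
  have hRsm : (R : ℝ) ≤ ε * m := hsm R (by linarith) hR5
  have hm4 : (m : ℝ) ≤ (m : ℝ) ^ 4 := le_self_pow₀ hmr (by norm_num)
  have hR4 : (1 : ℝ) ≤ (R : ℝ) ^ 4 := one_le_pow₀ hRr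
  have hN256 : (256 : ℝ) ≤ N := by
    have h1 : 256 ≤ c₆ * m := by
      rw [div_le_iff₀ hc₆] at hm256
      linarith
    have h2 : c₆ * m ≤ c₆ * (m : ℝ) ^ 4 * (R : ℝ) ^ 4 := by
      calc c₆ * m ≤ c₆ * (m : ℝ) ^ 4 := mul_le_mul_of_nonneg_left hm4 hc₆.le
        _ ≤ c₆ * (m : ℝ) ^ 4 * (R : ℝ) ^ 4 := le_mul_of_one_le_right (by positivity) hR4
    linarith
  have hN0 : (0 : ℝ) < N := by linarith
  -- the square root of `N`
  obtain ⟨q, hq⟩ : ∃ q, q = Real.sqrt (N : ℝ) := ⟨_, rfl⟩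
  have hq0 : 0 ≤ q := by rw [hq]; exact Real.sqrt_nonneg _
  have hqq : q * q = N := by rw [hq]; exact Real.mul_self_sqrt hN0.le
  have hq16 : 16 ≤ q := by
    by_contra h
    push Not at h
    nlinarith
  have hD1' : (D : ℝ) * (D + 1) ≤ N := by exact_mod_cast hD1
  have hD2' : (N : ℝ) < (D + 1) * (D + 2) := by exact_mod_cast hD2
  have hDq : q / 2 ≤ D := by
    by_contra h
    push Not at h
    have h0 : (0 : ℝ) ≤ D := Nat.cast_nonneg D
    nlinarith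
  -- the left hand side
  have hleft : lp * (q * N / 4) ≤ lp * ((D : ℝ) * (N - D * (D + 1) / 2)) := by
    refine mul_le_mul_of_nonneg_left ?_ hlp.le
    have h1 : (N : ℝ) / 2 ≤ N - D * (D + 1) / 2 := by linarith
    have h2 : q / 2 * (N / 2) ≤ (D : ℝ) * (N - D * (D + 1) / 2) :=
      mul_le_mul hDq h1 (by positivity) (Nat.cast_nonneg D)
    calc q * N / 4 = q / 2 * (N / 2) := by ring
      _ ≤ _ := h2
  have hmain : lp * q / 4 ≤
      C₇ * m * ((R : ℝ) ^ 3 + (R : ℝ) ^ 2 * (1 + Real.log m)) + d * Real.log N := by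
    have h1 := hleft.trans hcon
    have h2 : lp * (q * N / 4) = N * (lp * q / 4) := by ring
    rw [h2] at h1
    exact le_of_mul_le_mul_left h1 hN0
  -- lower bound for the square root
  have hqlow : Real.sqrt c₆ * (m : ℝ) ^ 2 * (R : ℝ) ^ 2 ≤ q := by
    rw [hq]
    refine Real.le_sqrt_of_sq_le ?_
    have h1 : (Real.sqrt c₆ * (m : ℝ) ^ 2 * (R : ℝ) ^ 2) ^ 2 =
        c₆ * (m : ℝ) ^ 4 * (R : ℝ) ^ 4 := by
      rw [mul_pow, mul_pow, Real.sq_sqrt hc₆.le]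
      ring
    rw [h1]
    exact hN1
  have hlow : 2 * κ * ((m : ℝ) ^ 2 * (R : ℝ) ^ 2) ≤ lp * q / 4 := by
    rw [hκ]
    have h1 := mul_le_mul_of_nonneg_left hqlow hlp.le
    calc 2 * (lp * Real.sqrt c₆ / 8) * ((m : ℝ) ^ 2 * (R : ℝ) ^ 2) =
        lp * (Real.sqrt c₆ * (m : ℝ) ^ 2 * (R : ℝ) ^ 2) / 4 := by ring
      _ ≤ lp * q / 4 := by linarith
  -- the logarithm of `N`
  have hlogN : Real.log N ≤ 9 * (ε * m) + (ε * m) := by
    have hC : (N : ℝ) ≤ (m : ℝ) ^ 5 * (R : ℝ) ^ 4 := by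
      refine hN2.trans ?_
      have h1 : C₆ ≤ m := (le_abs_self _).trans hmC
      calc C₆ * (m : ℝ) ^ 4 * (R : ℝ) ^ 4 ≤ m * (m : ℝ) ^ 4 * (R : ℝ) ^ 4 := by
            refine mul_le_mul_of_nonneg_right ?_ (by positivity)
            exact mul_le_mul_of_nonneg_right h1 (by positivity)
        _ = (m : ℝ) ^ 5 * (R : ℝ) ^ 4 := by ring
    have h1 : Real.log N ≤ 5 * Real.log m + 4 * Real.log R := by
      have h2 := Real.log_le_log hN0 hC
      rw [Real.log_mul (by positivity) (by positivity), Real.log_pow, Real.log_pow] at h2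
      push_cast at h2
      exact h2
    have h2 : Real.log R ≤ R := by
      have := Real.log_le_sub_one_of_pos (show (0 : ℝ) < R by linarith)
      linarith
    linarith
  -- the right hand side is small
  have hmR : (m : ℝ) ≤ (m : ℝ) * (R : ℝ) ^ 2 := le_mul_of_one_le_right (by linarith)
    (one_le_pow₀ hRr)
  have hX : 0 ≤ (m : ℝ) * (R : ℝ) ^ 2 := by positivity
  have hright : C₇ * m * ((R : ℝ) ^ 3 + (R : ℝ) ^ 2 * (1 + Real.log m)) + d * Real.log N ≤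
      ((3 * C₇ + 10 * d) * ε) * ((m : ℝ) ^ 2 * (R : ℝ) ^ 2) := by
    have h1 : (R : ℝ) + (1 + Real.log m) ≤ 3 * (ε * m) := by linarith
    have h2 : C₇ * m * ((R : ℝ) ^ 3 + (R : ℝ) ^ 2 * (1 + Real.log m)) ≤
        C₇ * (m * (R : ℝ) ^ 2) * (3 * (ε * m)) := by
      calc C₇ * m * ((R : ℝ) ^ 3 + (R : ℝ) ^ 2 * (1 + Real.log m)) =
          C₇ * (m * (R : ℝ) ^ 2) * (R + (1 + Real.log m)) := by ring
        _ ≤ C₇ * (m * (R : ℝ) ^ 2) * (3 * (ε * m)) :=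
          mul_le_mul_of_nonneg_left h1 (mul_nonneg hC₇ hX)
    have h3 : d * Real.log N ≤ d * (10 * (ε * m)) * (m * (R : ℝ) ^ 2) := by
      have h4 : d * Real.log N ≤ d * (10 * (ε * m)) :=
        mul_le_mul_of_nonneg_left (by linarith) hd
      have h5 : 0 ≤ d * (10 * (ε * m)) := by positivity
      calc d * Real.log N ≤ d * (10 * (ε * m)) := h4
        _ ≤ d * (10 * (ε * m)) * (m * (R : ℝ) ^ 2) :=
          le_mul_of_one_le_right h5 (by linarith)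
    calc _ ≤ C₇ * (m * (R : ℝ) ^ 2) * (3 * (ε * m)) + d * (10 * (ε * m)) * (m * (R : ℝ) ^ 2) :=
          add_le_add h2 h3
      _ = ((3 * C₇ + 10 * d) * ε) * ((m : ℝ) ^ 2 * (R : ℝ) ^ 2) := by ring
  have hpos : 0 < (m : ℝ) ^ 2 * (R : ℝ) ^ 2 := by positivity
  have h1 := (hlow.trans hmain).trans hright
  have h2 : 2 * κ ≤ (3 * C₇ + 10 * d) * ε := le_of_mul_le_mul_right h1 hpos
  linarith

end Pool.Agent.H73.HK
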